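import Pool.Agent.H10.ALG.Targets

/-!
# MP_64fb07_lc, board `alg_modules`, row COR: corruption for one block
-/

set_option autoImplicit false

namespace Pool.Agent.H9.ALG

open Pool.Agent.H10.ALG Finset

section

variable {B : Type} [DecidableEq B]

theorem sum_mu0 [Fintype B] (A A' : Finset (Finset B)) :
    ∑ p ∈ A ×ˢ A', mu0 p =
      (1 / 4 : ℝ) ^ Fintype.card B * ∑ D : Finset B, (inn A D : ℝ) * (dsj A' D : ℝ) := by
  unfold mu0
  rw [← Finset.mul_sum]
  congr 1
  have h1 : ∀ p : Blk B,
      ((Finset.univ.filter fun D : Finset B => p.1 ⊆ D ∧ Disjoint p.2 D).card : ℝ) =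
        ∑ D : Finset B, (if p.1 ⊆ D then (1 : ℝ) else 0) * (if Disjoint p.2 D then 1 else 0) := by
    intro p
    rw [Finset.card_filter]
    push_cast
    refine Finset.sum_congr rfl fun D _ => ?_
    by_cases h : p.1 ⊆ D <;> by_cases h' : Disjoint p.2 D <;> simp [h, h']
  rw [Finset.sum_congr rfl fun p _ => h1 p, Finset.sum_comm]
  refine Finset.sum_congr rfl fun D _ => ?_
  rw [Finset.sum_product]
  have h2 : (∑ x ∈ A, ∑ y ∈ A', (if (x, y).1 ⊆ D then (1 : ℝ) else 0) *
      (if Disjoint (x, y).2 D then 1 else 0)) =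
      ∑ x ∈ A, ∑ y ∈ A', (fun a : Finset B => if a ⊆ D then (1 : ℝ) else 0) x *
      (fun b : Finset B => if Disjoint b D then (1 : ℝ) else 0) y := rfl
  rw [h2, ← Finset.sum_mul_sum]
  unfold inn dsj
  rw [Finset.card_filter, Finset.card_filter]
  push_cast
  rfl

theorem inn_sub (A : Finset (Finset B)) (D : Finset B) (i : B) (hi : i ∉ D) :
    (∑ a ∈ A, if i ∈ a ∧ a ⊆ insert i D then (1 : ℝ) else 0) =
      (inn A (insert i D) : ℝ) - inn A D := by
  unfold inn
  rw [Finset.card_filter, Finset.card_filter]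
  push_cast
  rw [← Finset.sum_sub_distrib]
  refine Finset.sum_congr rfl fun a _ => ?_
  by_cases h : a ⊆ D
  · have h1 : i ∉ a := fun h' => hi (h h')
    have h2 : a ⊆ insert i D := h.trans (Finset.subset_insert _ _)
    simp [h, h1, h2]
  · by_cases h2 : a ⊆ insert i D
    · have h1 : i ∈ a := by
        by_contra h1
        exact h ((Finset.subset_insert_iff_of_notMem h1).1 h2)
      simp [h, h1, h2]
    · simp [h, h2]

theorem dsj_sub (A : Finset (Finset B)) (D : Finset B) (i : B) (hi : i ∉ D) :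
    (∑ b ∈ A, if i ∈ b ∧ Disjoint b D then (1 : ℝ) else 0) =
      (dsj A D : ℝ) - dsj A (insert i D) := by
  unfold dsj
  rw [Finset.card_filter, Finset.card_filter]
  push_cast
  rw [← Finset.sum_sub_distrib]
  refine Finset.sum_congr rfl fun b _ => ?_
  by_cases h : Disjoint b D
  · by_cases h1 : i ∈ b
    · have h2 : ¬ Disjoint b (insert i D) := by
        intro h2
        exact (Finset.disjoint_left.1 h2 h1) (Finset.mem_insert_self _ _)
      simp [h, h1, h2]
    · have h2 : Disjoint b (insert i D) := by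
        rw [Finset.disjoint_insert_right]
        exact ⟨h1, h⟩
      simp [h, h1, h2]
  · have h2 : ¬ Disjoint b (insert i D) := by
      intro h2
      rw [Finset.disjoint_insert_right] at h2
      exact h h2.2
    simp [h, h2]

theorem sum_mu1 [Fintype B] (A A' : Finset (Finset B)) :
    ∑ p ∈ A ×ˢ A', mu1 p =
      4 / (Fintype.card B : ℝ) * (1 / 4 : ℝ) ^ Fintype.card B *
        ∑ D : Finset B, ∑ i : B, if i ∉ D then
          ((inn A (insert i D) : ℝ) - inn A D) * ((dsj A' D : ℝ) - dsj A' (insert i D)) else 0 := by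
  unfold mu1
  rw [← Finset.mul_sum]
  congr 1
  have h1 : ∀ (p : Blk B) (i : B),
      ((Finset.univ.filter fun D : Finset B =>
        i ∉ D ∧ i ∈ p.1 ∧ p.1 ⊆ insert i D ∧ i ∈ p.2 ∧ Disjoint p.2 D).card : ℝ) =
        ∑ D : Finset B, (if i ∉ D then (if i ∈ p.1 ∧ p.1 ⊆ insert i D then (1 : ℝ) else 0) *
          (if i ∈ p.2 ∧ Disjoint p.2 D then 1 else 0) else 0) := by
    intro p i
    rw [Finset.card_filter]
    push_cast
    refine Finset.sum_congr rfl fun D _ => ?_
    by_cases h : i ∈ D <;> by_cases h1 : i ∈ p.1 <;> by_cases h2 : p.1 ⊆ insert i D <;>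
      by_cases h3 : i ∈ p.2 <;> by_cases h4 : Disjoint p.2 D <;> simp [h, h1, h2, h3, h4]
  rw [Finset.sum_congr rfl fun p _ => Finset.sum_congr rfl fun i _ => h1 p i, Finset.sum_comm]
  rw [Finset.sum_comm' (s := (Finset.univ : Finset (Finset B)))
    (t := fun _ => (Finset.univ : Finset B)) (s' := fun _ => Finset.univ)
    (t' := (Finset.univ : Finset B)) (by simp)]
  refine Finset.sum_congr rfl fun i _ => ?_
  rw [Finset.sum_comm]
  refine Finset.sum_congr rfl fun D _ => ?_
  by_cases hi : i ∈ D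
  · simp [hi]
  · simp only [hi, not_false_eq_true, if_true]
    rw [Finset.sum_product, ← inn_sub A D i hi, ← dsj_sub A' D i hi, Finset.sum_mul_sum]

/-- the edges of the cube, seen from above and from below -/
theorem shift [Fintype B] (G : Finset B → B → ℝ) :
    (∑ D : Finset B, ∑ i : B, if i ∉ D then G (insert i D) i else 0) =
      ∑ D : Finset B, ∑ i : B, if i ∈ D then G D i else 0 := by
  rw [Finset.sum_comm, Finset.sum_comm (f := fun D i => if i ∈ D then G D i else 0)]
  refine Finset.sum_congr rfl fun i _ => ?_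
  rw [← Finset.sum_filter, ← Finset.sum_filter]
  refine Finset.sum_nbij' (fun D => insert i D) (fun D => D.erase i) ?_ ?_ ?_ ?_ ?_
  · intro D hD
    simp
  · intro D hD
    simp
  · intro D hD
    simp only [Finset.mem_filter, Finset.mem_univ, true_and] at hD
    exact Finset.erase_insert hD
  · intro D hD
    simp only [Finset.mem_filter, Finset.mem_univ, true_and] at hD
    exact Finset.insert_erase hD
  · intro D hD
    rfl

theorem inn_mono (A : Finset (Finset B)) {D D' : Finset B} (h : D ⊆ D') : inn A D ≤ inn A D' := by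
  unfold inn
  refine Finset.card_le_card ?_
  intro a ha
  simp only [Finset.mem_filter] at ha ⊢
  exact ⟨ha.1, ha.2.trans h⟩

theorem dsj_anti (A : Finset (Finset B)) {D D' : Finset B} (h : D ⊆ D') : dsj A D' ≤ dsj A D := by
  unfold dsj
  refine Finset.card_le_card ?_
  intro a ha
  simp only [Finset.mem_filter] at ha ⊢
  exact ⟨ha.1, ha.2.mono_right h⟩

/-- one edge -/
theorem edge (a a' b b' : ℕ) (ha : a ≤ a') (hb : b ≤ b') :
    ((a' : ℝ) * b + a * b') ≤
      50 * (4 * (((a' : ℝ) - a) * ((b' : ℝ) - b))) +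
      11 * ((a' : ℝ) * b * (if 10 * a < a' ∨ 10 * (a' - a) < a' then 1 else 0)) +
      11 * ((a : ℝ) * b' * (if 10 * b < b' ∨ 10 * (b' - b) < b' then 1 else 0)) := by
  have ha1 : (a : ℝ) ≤ a' := by exact_mod_cast ha
  have hb1 : (b : ℝ) ≤ b' := by exact_mod_cast hb
  have ha0 : (0 : ℝ) ≤ a := Nat.cast_nonneg a
  have hb0 : (0 : ℝ) ≤ b := Nat.cast_nonneg b
  have hy : 0 ≤ ((a' : ℝ) - a) * ((b' : ℝ) - b) := mul_nonneg (by linarith) (by linarith)
  have e1 : 0 ≤ (a' : ℝ) * b := mul_nonneg (by linarith) hb0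
  have e2 : 0 ≤ (a : ℝ) * b' := mul_nonneg ha0 (by linarith)
  by_cases hA : 10 * a < a' ∨ 10 * (a' - a) < a'
  · by_cases hB : 10 * b < b' ∨ 10 * (b' - b) < b'
    · rw [if_pos hA, if_pos hB]
      nlinarith
    · rw [if_pos hA, if_neg hB]
      push Not at hB
      have h1 : (b' : ℝ) ≤ 10 * b := by exact_mod_cast hB.1
      have h2 : (a : ℝ) * b' ≤ a' * (10 * b) := mul_le_mul ha1 h1 (by linarith) (by linarith)
      nlinarith
  · by_cases hB : 10 * b < b' ∨ 10 * (b' - b) < b'
    · rw [if_neg hA, if_pos hB]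
      push Not at hA
      have h1 : (a' : ℝ) ≤ 10 * a := by exact_mod_cast hA.1
      have h2 : (a' : ℝ) * b ≤ (10 * a) * b' := mul_le_mul h1 hb1 hb0 (by linarith)
      nlinarith
    · rw [if_neg hA, if_neg hB]
      push Not at hA hB
      have h1 : (a' : ℝ) ≤ 10 * (a' - a) := by
        have := hA.2
        have h3 : ((a' : ℕ) : ℝ) ≤ ((10 * (a' - a) : ℕ) : ℝ) := by exact_mod_cast this
        rw [Nat.cast_mul, Nat.cast_sub ha] at h3
        simpa using h3
      have h2 : (b' : ℝ) ≤ 10 * (b' - b) := by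
        have := hB.2
        have h3 : ((b' : ℕ) : ℝ) ≤ ((10 * (b' - b) : ℕ) : ℝ) := by exact_mod_cast this
        rw [Nat.cast_mul, Nat.cast_sub hb] at h3
        simpa using h3
      have h3 : (a' : ℝ) * b' ≤ (10 * (a' - a)) * (10 * (b' - b)) :=
        mul_le_mul h1 h2 (by linarith) (by linarith)
      have h4 : (a' : ℝ) * b ≤ a' * b' := mul_le_mul_of_nonneg_left hb1 (by linarith)
      have h5 : (a : ℝ) * b' ≤ a' * b' := mul_le_mul_of_nonneg_right ha1 (by linarith)
      nlinarith

end

/-- **COR.** -/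
theorem pf_COR (hCOB : T_COB) : T_COR := by
  intro B _ _ _ A A' T hT
  obtain ⟨c1, c2⟩ := hCOB B A A' T
  rw [sum_mu0, sum_mu1]
  have hY : (0 : ℝ) < (Fintype.card B : ℝ) := by
    have : 0 < Fintype.card B := Fintype.card_pos
    exact_mod_cast this
  have hTr : 440 * ((T : ℝ) + 1) ≤ (Fintype.card B : ℝ) := by exact_mod_cast hT
  set Y : ℝ := (Fintype.card B : ℝ) with hYdef
  set Z : ℝ := ∑ D : Finset B, (inn A D : ℝ) * (dsj A' D : ℝ) with hZ
  set W : ℝ := ∑ D : Finset B, ∑ i : B, (if i ∉ D then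
          ((inn A (insert i D) : ℝ) - inn A D) * ((dsj A' D : ℝ) - dsj A' (insert i D)) else 0)
    with hW
  have hZ0 : 0 ≤ Z := Finset.sum_nonneg fun D _ => mul_nonneg (Nat.cast_nonneg _) (Nat.cast_nonneg _)
  -- the sum of all NO
  have hNO : (∑ D : Finset B, ∑ i : B, if i ∉ D then
      ((inn A (insert i D) : ℝ) * dsj A' (insert i D) + inn A D * dsj A' D) else 0) = Y * Z := by
    have h1 : ∀ (D : Finset B) (i : B), (if i ∉ D then
      ((inn A (insert i D) : ℝ) * dsj A' (insert i D) + inn A D * dsj A' D) else 0) =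
        (if i ∉ D then ((inn A (insert i D) : ℝ) * dsj A' (insert i D)) else 0) +
        (if i ∉ D then ((inn A D : ℝ) * dsj A' D) else 0) := by
      intro D i
      split_ifs <;> simp
    simp_rw [h1, Finset.sum_add_distrib]
    rw [shift (fun D _ => (inn A D : ℝ) * dsj A' D), ← Finset.sum_add_distrib, hZ,
      Finset.mul_sum]
    refine Finset.sum_congr rfl fun D _ => ?_
    rw [← Finset.sum_add_distrib]
    have h2 : ∀ i : B, ((if i ∈ D then (inn A D : ℝ) * dsj A' D else 0) +
        if i ∉ D then (inn A D : ℝ) * dsj A' D else 0) = (inn A D : ℝ) * dsj A' D := by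
      intro i
      by_cases hi : i ∈ D <;> simp [hi]
    simp_rw [h2]
    rw [Finset.sum_const, Finset.card_univ, nsmul_eq_mul]
  -- bad edges, first kind
  have hb1 : (∑ D : Finset B, ∑ i : B, if i ∉ D then
      ((inn A (insert i D) : ℝ) * dsj A' (insert i D) *
        (if 10 * inn A D < inn A (insert i D) ∨
          10 * (inn A (insert i D) - inn A D) < inn A (insert i D) then 1 else 0)) else 0) ≤
      10 * (T + 1) * Z + Y * 4 ^ Fintype.card B * (1 / 2) ^ T := by
    refine le_trans (le_of_eq ?_) c1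
    have h3 := shift (B := B) (fun D i => (inn A D : ℝ) * dsj A' D *
      (if 10 * inn A (D.erase i) < inn A D ∨
        10 * (inn A D - inn A (D.erase i)) < inn A D then 1 else 0))
    have h4 : (∑ D : Finset B, ∑ i : B, if i ∉ D then
      ((inn A (insert i D) : ℝ) * dsj A' (insert i D) *
        (if 10 * inn A D < inn A (insert i D) ∨
          10 * (inn A (insert i D) - inn A D) < inn A (insert i D) then 1 else 0)) else 0) =
      (∑ D : Finset B, ∑ i : B, if i ∉ D then
        (fun (D : Finset B) (i : B) => (inn A D : ℝ) * dsj A' D *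
      (if 10 * inn A (D.erase i) < inn A D ∨
        10 * (inn A D - inn A (D.erase i)) < inn A D then 1 else 0)) (insert i D) i else 0) := by
      refine Finset.sum_congr rfl fun D _ => Finset.sum_congr rfl fun i _ => ?_
      by_cases hi : i ∈ D
      · simp [hi]
      · simp only [hi, not_false_eq_true, if_true, Finset.erase_insert hi]
    rw [h4, h3]
    refine Finset.sum_congr rfl fun D _ => ?_
    rw [← Finset.sum_filter, Finset.filter_mem_eq_inter, Finset.univ_inter, ← Finset.mul_sum]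
    congr 1
    rw [Finset.card_filter]
    push_cast
    rfl
  have hb2 : (∑ D : Finset B, ∑ i : B, if i ∉ D then
      ((inn A D : ℝ) * dsj A' D *
        (if 10 * dsj A' (insert i D) < dsj A' D ∨
          10 * (dsj A' D - dsj A' (insert i D)) < dsj A' D then 1 else 0)) else 0) ≤
      10 * (T + 1) * Z + Y * 4 ^ Fintype.card B * (1 / 2) ^ T := by
    refine le_trans (le_of_eq ?_) c2
    refine Finset.sum_congr rfl fun D _ => ?_
    have h5 : ((Finset.univ : Finset B).filter fun i => i ∉ D) = Dᶜ := by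
      ext i
      simp
    rw [← Finset.sum_filter, h5, ← Finset.mul_sum]
    congr 1
    rw [Finset.card_filter]
    push_cast
    rfl
  -- edges
  have hmain : Y * Z ≤ 50 * (4 * W) + 22 * (10 * (T + 1) * Z + Y * 4 ^ Fintype.card B * (1 / 2) ^ T) := by
    have h6 : Y * Z ≤ 50 * (4 * W) +
      11 * (∑ D : Finset B, ∑ i : B, if i ∉ D then
      ((inn A (insert i D) : ℝ) * dsj A' (insert i D) *
        (if 10 * inn A D < inn A (insert i D) ∨
          10 * (inn A (insert i D) - inn A D) < inn A (insert i D) then 1 else 0)) else 0) +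
      11 * (∑ D : Finset B, ∑ i : B, if i ∉ D then
      ((inn A D : ℝ) * dsj A' D *
        (if 10 * dsj A' (insert i D) < dsj A' D ∨
          10 * (dsj A' D - dsj A' (insert i D)) < dsj A' D then 1 else 0)) else 0) := by
      rw [← hNO, hW]
      simp_rw [Finset.mul_sum, ← Finset.sum_add_distrib]
      refine Finset.sum_le_sum fun D _ => Finset.sum_le_sum fun i _ => ?_
      by_cases hi : i ∈ D
      · simp [hi]
      · simp only [hi, not_false_eq_true, if_true]
        exact edge _ _ _ _ (inn_mono A (Finset.subset_insert i D))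
          (dsj_anti A' (Finset.subset_insert i D))
    linarith
  -- conclusion
  have hp : (0 : ℝ) < (1 / 4 : ℝ) ^ Fintype.card B := by positivity
  have hq : (1 / 4 : ℝ) ^ Fintype.card B * 4 ^ Fintype.card B = 1 := by
    rw [← mul_pow]; norm_num
  have hh : (0 : ℝ) ≤ (1 / 2 : ℝ) ^ T := by positivity
  have h7 : Y * Z / 2 ≤ 50 * (4 * W) + 22 * (Y * 4 ^ Fintype.card B * (1 / 2) ^ T) := by
    have h8 : 220 * ((T : ℝ) + 1) * Z ≤ Y / 2 * Z :=
      mul_le_mul_of_nonneg_right (by linarith) hZ0
    nlinarith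
  have h9 : (1 / 4 : ℝ) ^ Fintype.card B * (Y * Z / 2) ≤
      (1 / 4 : ℝ) ^ Fintype.card B * (50 * (4 * W) + 22 * (Y * 4 ^ Fintype.card B * (1 / 2) ^ T)) :=
    mul_le_mul_of_nonneg_left h7 hp.le
  have h10 : (1 / 4 : ℝ) ^ Fintype.card B * (50 * (4 * W) + 22 * (Y * 4 ^ Fintype.card B * (1 / 2) ^ T))
      = 200 * ((1 / 4 : ℝ) ^ Fintype.card B * W) + 22 * Y * (1 / 2) ^ T := by
    have : (1 / 4 : ℝ) ^ Fintype.card B * (22 * (Y * 4 ^ Fintype.card B * (1 / 2) ^ T)) =
        22 * Y * (1 / 2) ^ T * ((1 / 4 : ℝ) ^ Fintype.card B * 4 ^ Fintype.card B) := by ring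
    rw [hq] at this
    linear_combination this
  rw [h10] at h9
  have h11 : 4 / Y * (1 / 4 : ℝ) ^ Fintype.card B * W =
      (4 * ((1 / 4 : ℝ) ^ Fintype.card B * W)) / Y := by
    field_simp
  rw [h11, le_div_iff₀ hY]
  nlinarith

end Pool.Agent.H9.ALG
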