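import Pool.Agent.H10.ALG.Targets

/-!
# MP_64fb07_lc, board `alg_modules`, row NUM: numbers
-/

set_option autoImplicit false

namespace Pool.Agent.H9.ALG

open Pool.Agent.H10.ALG Filter

theorem lin_le_two_pow (C : ℕ) : ∀ n : ℕ, 4 * C ≤ n → C * (n + 1) ≤ 2 ^ n := by
  intro n hn
  have h1 : n / 2 + 1 ≤ 2 ^ (n / 2) := Nat.lt_two_pow_self
  have h2 : (2 : ℕ) ^ (n / 2) * 2 ^ (n / 2) ≤ 2 ^ n := by
    rw [← pow_add]
    exact Nat.pow_le_pow_right (by norm_num) (by omega)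
  have h3 : n + 1 ≤ 2 * (n / 2 + 1) := by omega
  have h4 : 2 * C ≤ n / 2 + 1 := by omega
  calc C * (n + 1) ≤ C * (2 * (n / 2 + 1)) := Nat.mul_le_mul_left _ h3
    _ = 2 * C * (n / 2 + 1) := by ring
    _ ≤ (n / 2 + 1) * (n / 2 + 1) := Nat.mul_le_mul_right _ h4
    _ ≤ 2 ^ (n / 2) * 2 ^ (n / 2) := Nat.mul_le_mul h1 h1
    _ ≤ 2 ^ n := h2

/-- **NUM.** -/
theorem pf_NUM : T_NUM := by
  intro j
  filter_upwards [eventually_ge_atTop (4 * (3 * (j + 2) + 23))] with n hn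
  have hT : cost j n = 2 ^ ((j + 2) * (n + 1)) := rfl
  have hT1 : 1 ≤ cost j n := by rw [hT]; exact Nat.one_le_two_pow
  have hTn : n ≤ cost j n := by
    rw [hT]
    calc n ≤ 2 ^ n := Nat.lt_two_pow_self.le
      _ ≤ 2 ^ ((j + 2) * (n + 1)) := Nat.pow_le_pow_right (by norm_num) (by nlinarith)
  have hE := lin_le_two_pow (3 * (j + 2) + 23) n hn
  have hP1 : 1 ≤ 2 ^ n := Nat.one_le_two_pow
  set T := cost j n with hTdef
  set P := 2 ^ n with hP
  have a1 : 10 + n + T ≤ 16 * T := by omega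
  have hPT : 1 ≤ P * T := Nat.mul_pos hP1 hT1
  have a2 : P * (10 + n + T) + 1 ≤ 32 * (P * T) := by
    calc P * (10 + n + T) + 1 ≤ P * (16 * T) + 1 := by
          exact Nat.add_le_add_right (Nat.mul_le_mul_left _ a1) 1
      _ = 16 * (P * T) + 1 := by ring
      _ ≤ 32 * (P * T) := by omega
  have hTT : 1 ≤ T * T := Nat.mul_pos hT1 hT1
  have a3 : 1 + 2 * T * T ≤ 4 * (T * T) := by
    have : 2 * T * T = 2 * (T * T) := by ring
    omega
  have a4 : (1 + 2 * T * T) * (12 * (P * (10 + n + T) + 1)) * P ≤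
      (4 * (T * T)) * (16 * (32 * (P * T))) * P := by
    refine Nat.mul_le_mul_right _ (Nat.mul_le_mul a3 ?_)
    exact Nat.mul_le_mul (by norm_num) a2
  have a5 : P * T ≤ T * T * T * P * P := by
    calc P * T = 1 * (P * T) := by ring
      _ ≤ (T * T * P) * (P * T) := Nat.mul_le_mul_right _ (Nat.mul_pos hTT hP1)
      _ = T * T * T * P * P := by ring
  have a6 : 440 * ((1 + 2 * T * T) * (12 * (P * (10 + n + T) + 1)) * P +
      P * (10 + n + T) + 1) ≤ 2 ^ 21 * (T * T * T * P * P) := by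
    calc 440 * ((1 + 2 * T * T) * (12 * (P * (10 + n + T) + 1)) * P + P * (10 + n + T) + 1)
        = 440 * ((1 + 2 * T * T) * (12 * (P * (10 + n + T) + 1)) * P +
          (P * (10 + n + T) + 1)) := by ring
      _ ≤ 440 * ((4 * (T * T)) * (16 * (32 * (P * T))) * P + 32 * (P * T)) :=
          Nat.mul_le_mul_left _ (Nat.add_le_add a4 a2)
      _ = 440 * (2048 * (T * T * T * P * P) + 32 * (P * T)) := by ring
      _ ≤ 440 * (2048 * (T * T * T * P * P) + 32 * (T * T * T * P * P)) := by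
          refine Nat.mul_le_mul_left _ (Nat.add_le_add_left (Nat.mul_le_mul_left _ a5) _)
      _ = 440 * 2080 * (T * T * T * P * P) := by ring
      _ ≤ 2 ^ 21 * (T * T * T * P * P) := Nat.mul_le_mul_right _ (by norm_num)
  refine le_trans a6 ?_
  rw [hT, hP]
  rw [← pow_add, ← pow_add, ← pow_add, ← pow_add, ← pow_add]
  refine Nat.pow_le_pow_right (by norm_num) ?_
  refine le_trans ?_ hE
  nlinarith

end Pool.Agent.H9.ALG
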