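import Pool.Agent.H10.ALG.Targets

/-!
# MP_64fb07_lc, board `alg_modules`, row VAL: the answer is the sum of the two halves
-/

set_option autoImplicit false

namespace Pool.Agent.H9.ALG

open Pool.Agent.H10.ALG Finset

/-- **VAL.** -/
theorem pf_VAL : T_VAL := by
  classical
  intro n O q
  refine ⟨fun A => ∑ z : Fin q.len → Bool,
      if (List.ofFn z).length = lev n ∧ (List.ofFn z).head? = some false then
        (if ∃ (x : In n) (y : Wi n),
          (List.ofFn z).tail = false :: (List.ofFn x ++ List.ofFn y) ∧ y ∈ A x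
          then q.c (List.ofFn z) else 0)
      else (if O (List.ofFn z) = true then q.c (List.ofFn z) else 0),
    fun A => ∑ z : Fin q.len → Bool,
      if (List.ofFn z).length = lev n ∧ (List.ofFn z).head? = some false then
        (if ∃ (x : In n) (y : Wi n),
          (List.ofFn z).tail = true :: (List.ofFn x ++ List.ofFn y) ∧ y ∈ A x
          then q.c (List.ofFn z) else 0)
      else 0, ?_⟩
  intro S
  unfold Qn.val
  dsimp only
  rw [← Finset.sum_add_distrib]
  refine Finset.sum_congr rfl fun z _ => ?_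
  unfold put
  by_cases h : (List.ofFn z).length = lev n ∧ (List.ofFn z).head? = some false
  · rw [if_pos h, if_pos h, if_pos h]
    unfold blkv
    simp only [decide_eq_true_eq]
    by_cases h1 : ∃ (x : In n) (y : Wi n),
          (List.ofFn z).tail = false :: (List.ofFn x ++ List.ofFn y) ∧ y ∈ (S x).1
    · have h2 : ¬ ∃ (x : In n) (y : Wi n),
          (List.ofFn z).tail = true :: (List.ofFn x ++ List.ofFn y) ∧ y ∈ (S x).2 := by
        rintro ⟨x', y', h2, -⟩
        obtain ⟨x, y, h3, -⟩ := h1
        rw [h2] at h3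
        simp at h3
      rw [if_pos h1, if_neg h2, add_zero, if_pos]
      obtain ⟨x, y, h3, h4⟩ := h1
      exact ⟨x, y, Or.inl ⟨h3, h4⟩⟩
    · by_cases h2 : ∃ (x : In n) (y : Wi n),
          (List.ofFn z).tail = true :: (List.ofFn x ++ List.ofFn y) ∧ y ∈ (S x).2
      · rw [if_neg h1, if_pos h2, zero_add, if_pos]
        obtain ⟨x, y, h3, h4⟩ := h2
        exact ⟨x, y, Or.inr ⟨h3, h4⟩⟩
      · rw [if_neg h1, if_neg h2, zero_add, if_neg]
        rintro ⟨x, y, h3 | h3⟩
        · exact h1 ⟨x, y, h3⟩
        · exact h2 ⟨x, y, h3⟩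
  · rw [if_neg h, if_neg h, if_neg h, add_zero]

end Pool.Agent.H9.ALG
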